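import Pool.Agent.H261R3.LH.Stmts

/-!
# Project LH (helper261), task StageD (volunteer helper26): push the contents of the cells downwards
-/

set_option autoImplicit false

namespace Pool.Agent.H26R3.LH

open Pool.Agent.H261R3.LH

variable {S : Type} [MetricSpace S]

/-! ### clip -/

theorem clip_le_one (x : ℝ) : clip x ≤ 1 := by
  unfold clip
  exact max_le (by norm_num) (min_le_left _ _)

theorem clip_of_mem {x : ℝ} (h0 : 0 ≤ x) (h1 : x ≤ 1) : clip x = x := by
  unfold clip
  rw [min_eq_right h1, max_eq_right h0]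

theorem clip_of_le {x : ℝ} (h : x ≤ 0) : clip x = 0 := by
  unfold clip
  rw [min_eq_right (h.trans zero_le_one), max_eq_left h]

theorem clip_of_ge {x : ℝ} (h : 1 ≤ x) : clip x = 1 := by
  unfold clip
  rw [min_eq_left h, max_eq_right zero_le_one]

theorem clip_lip (x y : ℝ) : |clip x - clip y| ≤ |x - y| := by
  unfold clip
  have h1 := abs_max_sub_max_le_max (0 : ℝ) (min 1 x) 0 (min 1 y)
  have h2 := abs_min_sub_min_le_max (1 : ℝ) x 1 y
  rw [sub_self, abs_zero] at h1 h2
  exact h1.trans (max_le (abs_nonneg _) (h2.trans (max_le (abs_nonneg _) le_rfl)))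

/-! ### contents -/

/-- A content: `C`-Lipschitz in each variable, equal to `p` outside the open unit square. -/
structure Con (C : ℝ) (p : S) (A : ℝ → ℝ → S) : Prop where
  lip : ∀ x x' y y', dist (A x y) (A x' y') ≤ C * |x - x'| + C * |y - y'|
  out : ∀ x y, (x ≤ 0 ∨ 1 ≤ x ∨ y ≤ 0 ∨ 1 ≤ y) → A x y = p

theorem con_const {C : ℝ} (hC : 0 ≤ C) (p : S) : Con C p (fun _ _ => p) where
  lip x x' y y' := by
    rw [dist_self]
    positivity
  out _ _ _ := rfl

theorem con_clip {C : ℝ} {p : S} {A : ℝ → ℝ → S} (hC : 0 ≤ C)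
    (h1 : ∀ y, Lip1 C (fun x => A x y)) (h2 : ∀ x, Lip1 C (fun y => A x y))
    (hb : ∀ x, A x 0 = p ∧ A x 1 = p) (hv : ∀ y, A 0 y = p ∧ A 1 y = p) :
    Con C p (fun x y => A (clip x) (clip y)) where
  lip x x' y y' := by
    calc dist (A (clip x) (clip y)) (A (clip x') (clip y'))
        ≤ dist (A (clip x) (clip y)) (A (clip x') (clip y)) +
          dist (A (clip x') (clip y)) (A (clip x') (clip y')) := dist_triangle _ _ _
      _ ≤ C * |clip x - clip x'| + C * |clip y - clip y'| :=
          add_le_add (h1 (clip y) (clip x) (clip x')) (h2 (clip x') (clip y) (clip y'))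
      _ ≤ C * |x - x'| + C * |y - y'| :=
          add_le_add (mul_le_mul_of_nonneg_left (clip_lip _ _) hC)
            (mul_le_mul_of_nonneg_left (clip_lip _ _) hC)
  out x y h := by
    show A (clip x) (clip y) = p
    rcases h with h | h | h | h
    · rw [clip_of_le h]; exact (hv _).1
    · rw [clip_of_ge h]; exact (hv _).2
    · rw [clip_of_le h]; exact (hb _).1
    · rw [clip_of_ge h]; exact (hb _).2

/-- Lipschitz on the unit interval. -/
def LipU (L : ℝ) (f : ℝ → S) : Prop :=
  ∀ x y, 0 ≤ x → x ≤ y → y ≤ 1 → dist (f x) (f y) ≤ L * (y - x)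

theorem LipU.lip1 {L : ℝ} (hL : 0 ≤ L) {f : ℝ → S} (h : LipU L f) :
    Lip1 L (fun x => f (clip x)) := by
  intro x y
  have hxy := clip_lip x y
  rcases le_total (clip x) (clip y) with hle | hle
  · refine (h _ _ (clip_nonneg _) hle (clip_le_one _)).trans ?_
    rw [abs_sub_comm, abs_of_nonneg (sub_nonneg.mpr hle)] at hxy
    exact mul_le_mul_of_nonneg_left hxy hL
  · rw [dist_comm]
    refine (h _ _ (clip_nonneg _) hle (clip_le_one _)).trans ?_
    rw [abs_of_nonneg (sub_nonneg.mpr hle)] at hxy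
    exact mul_le_mul_of_nonneg_left hxy hL

theorem LipU.glue {L c : ℝ} {f : ℝ → S} (hc0 : 0 ≤ c) (hc1 : c ≤ 1)
    (h1 : ∀ x y, 0 ≤ x → x ≤ y → y ≤ c → dist (f x) (f y) ≤ L * (y - x))
    (h2 : ∀ x y, c ≤ x → x ≤ y → y ≤ 1 → dist (f x) (f y) ≤ L * (y - x)) : LipU L f := by
  intro x y hx hxy hy
  rcases le_total y c with h | h
  · exact h1 x y hx hxy h
  · rcases le_total c x with h' | h'
    · exact h2 x y h' hxy hy
    · have e1 := h1 x c hx h' le_rfl
      have e2 := h2 c y le_rfl h hy
      have := dist_triangle (f x) (f c) (f y)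
      nlinarith

/-- The motion in one cell: `A` is the content of the cell, `B` the incoming content. -/
noncomputable def W (A B : ℝ → ℝ → S) (t s h : ℝ) : S :=
  if t ≤ 1 / 2 then A ((s - t) / (1 - t)) ((1 + 2 * t) * h)
  else if 1 / 2 ≤ h then B (s / h) (2 * t - 1)
  else if s ≤ 1 / 2 then B (2 * s) (2 * t - 1)
  else A (2 * s - 1) (2 * h + (2 * t - 1))

section W

variable {C : ℝ} {p : S} {A B : ℝ → ℝ → S}

theorem W_first (t s h : ℝ) (ht : t ≤ 1 / 2) :
    W A B t s h = A ((s - t) / (1 - t)) ((1 + 2 * t) * h) := if_pos ht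

theorem W_half (s h : ℝ) : W A B (1 / 2) s h = A (2 * s - 1) (2 * h) := by
  rw [W_first _ _ _ le_rfl]
  congr 1
  · field_simp
    ring
  · ring

theorem W_top (hA : Con C p A) (hB : Con C p B) (t s h : ℝ) (ht : 1 / 2 ≤ t) (hh : 1 / 2 ≤ h) :
    W A B t s h = B (s / h) (2 * t - 1) := by
  rcases ht.eq_or_lt with h1 | h1
  · subst h1
    rw [W_half, hA.out _ _ (Or.inr (Or.inr (Or.inr (by linarith)))),
      hB.out _ _ (Or.inr (Or.inr (Or.inl (by norm_num))))]
  · unfold W
    rw [if_neg (not_le.mpr h1), if_pos hh]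

theorem W_left (hA : Con C p A) (hB : Con C p B) (t s h : ℝ) (ht : 1 / 2 ≤ t) (hh : h ≤ 1 / 2)
    (hs : s ≤ 1 / 2) : W A B t s h = B (2 * s) (2 * t - 1) := by
  rcases ht.eq_or_lt with h1 | h1
  · subst h1
    rw [W_half, hA.out _ _ (Or.inl (by linarith)),
      hB.out _ _ (Or.inr (Or.inr (Or.inl (by norm_num))))]
  · rcases hh.eq_or_lt with h2 | h2
    · subst h2
      rw [W_top hA hB _ _ _ ht le_rfl]
      congr 1
      ring
    · unfold W
      rw [if_neg (not_le.mpr h1), if_neg (not_le.mpr h2), if_pos hs]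

theorem W_right (hA : Con C p A) (hB : Con C p B) (t s h : ℝ) (ht : 1 / 2 ≤ t) (hh : h ≤ 1 / 2)
    (hs : 1 / 2 ≤ s) : W A B t s h = A (2 * s - 1) (2 * h + (2 * t - 1)) := by
  rcases ht.eq_or_lt with h1 | h1
  · subst h1
    rw [W_half]
    congr 1
    ring
  · rcases hh.eq_or_lt with h2 | h2
    · subst h2
      rw [W_top hA hB _ _ _ ht le_rfl, hB.out _ _ (Or.inr (Or.inl ?_)),
        hA.out _ _ (Or.inr (Or.inr (Or.inr (by linarith))))]
      rw [le_div_iff₀ (by norm_num)]
      linarith
    · rcases hs.eq_or_lt with h3 | h3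
      · subst h3
        rw [W_left hA hB _ _ _ ht hh le_rfl, hB.out _ _ (Or.inr (Or.inl (by norm_num))),
          hA.out _ _ (Or.inl (by norm_num))]
      · unfold W
        rw [if_neg (not_le.mpr h1), if_neg (not_le.mpr h2), if_neg (not_le.mpr h3)]

theorem W_s0 (hA : Con C p A) (hB : Con C p B) (t h : ℝ) (ht0 : 0 ≤ t) :
    W A B t 0 h = p := by
  rcases le_total t (1 / 2) with ht | ht
  · rw [W_first _ _ _ ht]
    exact hA.out _ _ (Or.inl (div_nonpos_of_nonpos_of_nonneg (by linarith) (by linarith)))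
  · rcases le_total (1 / 2) h with hh | hh
    · rw [W_top hA hB _ _ _ ht hh]
      exact hB.out _ _ (Or.inl (by simp))
    · rw [W_left hA hB _ _ _ ht hh (by norm_num)]
      exact hB.out _ _ (Or.inl (by simp))

theorem W_s1 (hA : Con C p A) (hB : Con C p B) (t h : ℝ) (hh1 : h ≤ 1) :
    W A B t 1 h = p := by
  rcases le_total t (1 / 2) with ht | ht
  · rw [W_first _ _ _ ht]
    refine hA.out _ _ (Or.inr (Or.inl ?_))
    rw [div_self (by linarith)]
  · rcases le_total (1 / 2) h with hh | hh
    · rw [W_top hA hB _ _ _ ht hh]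
      refine hB.out _ _ (Or.inr (Or.inl ?_))
      rw [le_div_iff₀ (by linarith)]
      linarith
    · rw [W_right hA hB _ _ _ ht hh (by norm_num)]
      exact hA.out _ _ (Or.inr (Or.inl (by norm_num)))

theorem W_lip_s (hC : 0 ≤ C) (hA : Con C p A) (hB : Con C p B) (t h : ℝ) :
    LipU (6 * C) (fun s => W A B t s h) := by
  rcases le_total t (1 / 2) with ht | ht
  · intro x y hx hxy hy
    show dist (W A B t x h) (W A B t y h) ≤ _
    rw [W_first _ _ _ ht, W_first _ _ _ ht]
    refine (hA.lip _ _ _ _).trans ?_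
    rw [sub_self, abs_zero, mul_zero, add_zero, ← sub_div, abs_div,
      abs_of_nonpos (show x - t - (y - t) ≤ 0 by linarith), abs_of_pos (show 0 < 1 - t by linarith)]
    have : -(x - t - (y - t)) / (1 - t) ≤ 2 * (y - x) := by
      rw [div_le_iff₀ (by linarith)]
      nlinarith
    have h2 := mul_le_mul_of_nonneg_left this hC
    nlinarith
  · rcases le_total (1 / 2) h with hh | hh
    · intro x y hx hxy hy
      show dist (W A B t x h) (W A B t y h) ≤ _
      rw [W_top hA hB _ _ _ ht hh, W_top hA hB _ _ _ ht hh]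
      refine (hB.lip _ _ _ _).trans ?_
      rw [sub_self, abs_zero, mul_zero, add_zero, ← sub_div, abs_div,
        abs_of_nonpos (show x - y ≤ 0 by linarith), abs_of_pos (show 0 < h by linarith)]
      have : -(x - y) / h ≤ 2 * (y - x) := by
        rw [div_le_iff₀ (by linarith)]
        nlinarith
      have h2 := mul_le_mul_of_nonneg_left this hC
      nlinarith
    · refine LipU.glue (c := 1 / 2) (by norm_num) (by norm_num) ?_ ?_
      · intro x y hx hxy hy
        show dist (W A B t x h) (W A B t y h) ≤ _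
        rw [W_left hA hB _ _ _ ht hh (hxy.trans hy), W_left hA hB _ _ _ ht hh hy]
        refine (hB.lip _ _ _ _).trans ?_
        rw [sub_self, abs_zero, mul_zero, add_zero,
          abs_of_nonpos (show 2 * x - 2 * y ≤ 0 by linarith)]
        nlinarith
      · intro x y hx hxy hy
        show dist (W A B t x h) (W A B t y h) ≤ _
        rw [W_right hA hB _ _ _ ht hh hx, W_right hA hB _ _ _ ht hh (hx.trans hxy)]
        refine (hA.lip _ _ _ _).trans ?_
        rw [sub_self, abs_zero, mul_zero, add_zero,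
          abs_of_nonpos (show 2 * x - 1 - (2 * y - 1) ≤ 0 by linarith)]
        nlinarith

theorem W_lip_h (hC : 0 ≤ C) (hA : Con C p A) (hB : Con C p B) (t s : ℝ) (ht0 : 0 ≤ t)
    (hs0 : 0 ≤ s) (hs1 : s ≤ 1) :
    LipU (6 * C) (fun h => W A B t s h) := by
  rcases le_total t (1 / 2) with ht | ht
  · intro x y hx hxy hy
    show dist (W A B t s x) (W A B t s y) ≤ _
    rw [W_first _ _ _ ht, W_first _ _ _ ht]
    refine (hA.lip _ _ _ _).trans ?_
    rw [sub_self, abs_zero, mul_zero, zero_add, ← mul_sub, abs_mul,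
      abs_of_nonpos (show x - y ≤ 0 by linarith), abs_of_pos (show 0 < 1 + 2 * t by linarith)]
    have : (1 + 2 * t) * -(x - y) ≤ 2 * (y - x) := by nlinarith
    have h2 := mul_le_mul_of_nonneg_left this hC
    nlinarith
  · refine LipU.glue (c := 1 / 2) (by norm_num) (by norm_num) ?_ ?_
    · intro x y hx hxy hy
      show dist (W A B t s x) (W A B t s y) ≤ _
      rcases le_total s (1 / 2) with hs | hs
      · rw [W_left hA hB _ _ _ ht (hxy.trans hy) hs, W_left hA hB _ _ _ ht hy hs, dist_self]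
        have : 0 ≤ y - x := by linarith
        positivity
      · rw [W_right hA hB _ _ _ ht (hxy.trans hy) hs, W_right hA hB _ _ _ ht hy hs]
        refine (hA.lip _ _ _ _).trans ?_
        rw [sub_self, abs_zero, mul_zero, zero_add,
          abs_of_nonpos (show 2 * x + (2 * t - 1) - (2 * y + (2 * t - 1)) ≤ 0 by linarith)]
        nlinarith
    · intro x y hx hxy hy
      show dist (W A B t s x) (W A B t s y) ≤ _
      rw [W_top hA hB _ _ _ ht hx, W_top hA hB _ _ _ ht (hx.trans hxy)]
      refine (hB.lip _ _ _ _).trans ?_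
      have hx0 : 0 < x := by linarith
      have hy0 : 0 < y := by linarith
      have e : s / x - s / y = s * (y - x) / (x * y) := by
        field_simp
      rw [sub_self, abs_zero, mul_zero, add_zero, e,
        abs_of_nonneg (div_nonneg (mul_nonneg hs0 (by linarith)) (by positivity))]
      have : s * (y - x) / (x * y) ≤ 4 * (y - x) := by
        rw [div_le_iff₀ (by positivity)]
        have h1 : 1 / 4 ≤ x * y := by nlinarith
        have h2 : 0 ≤ y - x := by linarith
        nlinarith
      have h2 := mul_le_mul_of_nonneg_left this hC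
      nlinarith

theorem W_lip_t (hC : 0 ≤ C) (hA : Con C p A) (hB : Con C p B) (s h : ℝ)
    (hs0 : 0 ≤ s) (hs1 : s ≤ 1) (hh0 : 0 ≤ h) (hh1 : h ≤ 1) :
    LipU (6 * C) (fun t => W A B t s h) := by
  refine LipU.glue (c := 1 / 2) (by norm_num) (by norm_num) ?_ ?_
  · intro x y hx hxy hy
    show dist (W A B x s h) (W A B y s h) ≤ _
    rw [W_first _ _ _ (hxy.trans hy), W_first _ _ _ hy]
    refine (hA.lip _ _ _ _).trans ?_
    have hx1 : 0 < 1 - x := by linarith
    have hy1 : 0 < 1 - y := by linarith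
    have e : (s - x) / (1 - x) - (s - y) / (1 - y) = (1 - s) * (y - x) / ((1 - x) * (1 - y)) := by
      field_simp
      ring
    rw [e, abs_of_nonneg (div_nonneg (mul_nonneg (by linarith) (by linarith)) (by positivity)),
      abs_of_nonpos (show (1 + 2 * x) * h - (1 + 2 * y) * h ≤ 0 by nlinarith)]
    have h1 : (1 - s) * (y - x) / ((1 - x) * (1 - y)) ≤ 4 * (y - x) := by
      rw [div_le_iff₀ (by positivity)]
      have h1 : 1 / 4 ≤ (1 - x) * (1 - y) := by nlinarith
      have h2 : 0 ≤ y - x := by linarith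
      nlinarith [mul_nonneg hs0 h2]
    have h2 : -((1 + 2 * x) * h - (1 + 2 * y) * h) ≤ 2 * (y - x) := by
      have : 0 ≤ (y - x) * (1 - h) := mul_nonneg (by linarith) (by linarith)
      nlinarith
    have h3 := mul_le_mul_of_nonneg_left h1 hC
    have h4 := mul_le_mul_of_nonneg_left h2 hC
    nlinarith
  · intro x y hx hxy hy
    show dist (W A B x s h) (W A B y s h) ≤ _
    have hxy' : 0 ≤ C * (y - x) := mul_nonneg hC (by linarith)
    rcases le_total (1 / 2) h with hh | hh
    · rw [W_top hA hB _ _ _ hx hh, W_top hA hB _ _ _ (hx.trans hxy) hh]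
      refine (hB.lip _ _ _ _).trans ?_
      rw [sub_self, abs_zero, mul_zero, zero_add,
        abs_of_nonpos (show 2 * x - 1 - (2 * y - 1) ≤ 0 by linarith)]
      nlinarith
    · rcases le_total s (1 / 2) with hs | hs
      · rw [W_left hA hB _ _ _ hx hh hs, W_left hA hB _ _ _ (hx.trans hxy) hh hs]
        refine (hB.lip _ _ _ _).trans ?_
        rw [sub_self, abs_zero, mul_zero, zero_add,
          abs_of_nonpos (show 2 * x - 1 - (2 * y - 1) ≤ 0 by linarith)]
        nlinarith
      · rw [W_right hA hB _ _ _ hx hh hs, W_right hA hB _ _ _ (hx.trans hxy) hh hs]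
        refine (hA.lip _ _ _ _).trans ?_
        rw [sub_self, abs_zero, mul_zero, zero_add,
          abs_of_nonpos (show 2 * h + (2 * x - 1) - (2 * h + (2 * y - 1)) ≤ 0 by linarith)]
        nlinarith

end W

/-! ### the incoming contents -/

/-- 2-adic valuation -/
noncomputable def vv (k : ℤ) : ℕ := padicValInt 2 k

theorem vv_two_mul {k : ℤ} (hk : k ≠ 0) : vv (2 * k) = vv k + 1 := by
  unfold vv
  haveI : Fact (Nat.Prime 2) := ⟨Nat.prime_two⟩
  rw [padicValInt.mul (by norm_num) hk]
  have : padicValInt 2 2 = 1 := by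
    simpa using padicValInt_self (p := 2)
  rw [this, add_comm]

theorem vv_odd (k : ℤ) : vv (2 * k + 1) = 0 := by
  unfold vv
  refine padicValInt.eq_zero_of_not_dvd ?_
  intro h
  have h' : (2 : ℤ) ∣ 2 * k + 1 := by exact_mod_cast h
  omega

/-- The incoming content of a cell. -/
noncomputable def kap (p : S) (a : ℤ → ℤ → ℝ → ℝ → S) (j k : ℤ) : ℝ → ℝ → S :=
  if k = 0 then fun _ _ => p else a (j + vv k + 1) ((k / 2 ^ (vv k) - 1) / 2)

theorem kap_con {C : ℝ} (hC : 0 ≤ C) {p : S} {a : ℤ → ℤ → ℝ → ℝ → S}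
    (ha : ∀ j k, Con C p (a j k)) (j k : ℤ) : Con C p (kap p a j k) := by
  unfold kap
  split_ifs
  · exact con_const hC p
  · exact ha _ _

theorem kap_even (p : S) (a : ℤ → ℤ → ℝ → ℝ → S) (j k : ℤ) :
    kap p a j (2 * k) = kap p a (j + 1) k := by
  unfold kap
  by_cases hk : k = 0
  · subst hk
    simp
  · rw [if_neg (by omega), if_neg hk, vv_two_mul hk]
    congr 1
    · push_cast
      ring
    · rw [pow_succ', Int.mul_ediv_mul_of_pos _ _ (by norm_num)]

theorem kap_odd (p : S) (a : ℤ → ℤ → ℝ → ℝ → S) (j k : ℤ) :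
    kap p a j (2 * k + 1) = a (j + 1) k := by
  unfold kap
  rw [if_neg (by omega), vv_odd]
  congr 1
  · simp
  · simp

/-- Task StageD. -/
theorem taskStageD : TaskStageD := by
  intro S _ p C hC
  refine ⟨6 * C, by positivity, ?_⟩
  intro G hG hb hv
  let a : ℤ → ℤ → ℝ → ℝ → S := fun j k x y => G j k (clip x) (clip y)
  have ha : ∀ j k, Con C p (a j k) := fun j k =>
    con_clip hC (fun y => hG.ls j k y) (fun x => hG.lh j k x) (fun x => hb j k x)
      (fun y => hv j k y)
  let κ : ℤ → ℤ → ℝ → ℝ → S := kap p a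
  have hκ : ∀ j k, Con C p (κ j k) := kap_con hC ha
  have h6 : 0 ≤ 6 * C := by positivity
  refine ⟨fun t j k s h => W (a j k) (κ j k) (clip t) (clip s) (clip h), ?_, ?_, ?_, ?_⟩
  · intro t
    refine ⟨?_, ?_, ?_, ?_, ?_⟩
    · intro j k h
      exact (W_lip_s hC (ha j k) (hκ j k) (clip t) (clip h)).lip1 h6
    · intro j k s
      exact (W_lip_h hC (ha j k) (hκ j k) (clip t) (clip s) (clip_nonneg _) (clip_nonneg _)
        (clip_le_one _)).lip1 h6
    · intro j k h
      show W (a j k) (κ j k) (clip t) (clip 1) (clip h) =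
        W (a j (k + 1)) (κ j (k + 1)) (clip t) (clip 0) (clip h)
      rw [clip_of_ge le_rfl, clip_of_le le_rfl, W_s1 (ha _ _) (hκ _ _) _ _ (clip_le_one _),
        W_s0 (ha _ _) (hκ _ _) _ _ (clip_nonneg _)]
    · intro j k s hs0 hs1
      show W (a j (2 * k)) (κ j (2 * k)) (clip t) (clip s) (clip 1) =
        W (a (j + 1) k) (κ (j + 1) k) (clip t) (clip (s / 2)) (clip 0)
      rw [clip_of_ge le_rfl, clip_of_le le_rfl, clip_of_mem hs0 hs1,
        clip_of_mem (show 0 ≤ s / 2 by linarith) (show s / 2 ≤ 1 by linarith)]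
      have ht0 := clip_nonneg t
      rcases le_total (clip t) (1 / 2) with ht | ht
      · rw [W_first _ _ _ ht, W_first _ _ _ ht,
          (ha _ _).out _ _ (Or.inr (Or.inr (Or.inr (by linarith)))),
          (ha _ _).out _ _ (Or.inr (Or.inr (Or.inl (by linarith))))]
      · rw [W_top (ha _ _) (hκ _ _) _ _ _ ht (by norm_num),
          W_left (ha _ _) (hκ _ _) _ _ _ ht (by norm_num) (by linarith)]
        show kap p a j (2 * k) _ _ = kap p a (j + 1) k _ _
        rw [kap_even]
        congr 1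
        ring
    · intro j k s hs0 hs1
      show W (a j (2 * k + 1)) (κ j (2 * k + 1)) (clip t) (clip s) (clip 1) =
        W (a (j + 1) k) (κ (j + 1) k) (clip t) (clip ((1 + s) / 2)) (clip 0)
      rw [clip_of_ge le_rfl, clip_of_le le_rfl, clip_of_mem hs0 hs1,
        clip_of_mem (show 0 ≤ (1 + s) / 2 by linarith) (show (1 + s) / 2 ≤ 1 by linarith)]
      have ht0 := clip_nonneg t
      rcases le_total (clip t) (1 / 2) with ht | ht
      · rw [W_first _ _ _ ht, W_first _ _ _ ht,
          (ha _ _).out _ _ (Or.inr (Or.inr (Or.inr (by linarith)))),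
          (ha _ _).out _ _ (Or.inr (Or.inr (Or.inl (by linarith))))]
      · rw [W_top (ha _ _) (hκ _ _) _ _ _ ht (by norm_num),
          W_right (ha _ _) (hκ _ _) _ _ _ ht (by norm_num) (by linarith)]
        show kap p a j (2 * k + 1) _ _ = a (j + 1) k _ _
        rw [kap_odd]
        congr 1
        · ring
        · ring
  · intro j k s h
    exact (W_lip_t hC (ha j k) (hκ j k) (clip s) (clip h) (clip_nonneg _) (clip_le_one _)
      (clip_nonneg _) (clip_le_one _)).lip1 h6
  · intro j k s h hs0 hs1 hh0 hh1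
    show W (a j k) (κ j k) (clip 0) (clip s) (clip h) = G j k s h
    rw [clip_of_le le_rfl, clip_of_mem hs0 hs1, clip_of_mem hh0 hh1, W_first _ _ _ (by norm_num)]
    show G j k (clip _) (clip _) = G j k s h
    have e1 : (s - 0) / (1 - 0) = s := by ring
    have e2 : (1 + 2 * 0) * h = h := by ring
    rw [e1, e2, clip_of_mem hs0 hs1, clip_of_mem hh0 hh1]
  · intro j k s h hs0 hs1 hh0 hh1
    show W (a j k) (κ j k) (clip 1) (clip s) (clip h) = p
    rw [clip_of_ge le_rfl, clip_of_mem hs0 hs1, clip_of_mem hh0 hh1]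
    rcases le_total (1 / 2) h with hh | hh
    · rw [W_top (ha _ _) (hκ _ _) _ _ _ (by norm_num) hh]
      exact (hκ _ _).out _ _ (Or.inr (Or.inr (Or.inr (by norm_num))))
    · rcases le_total s (1 / 2) with hs | hs
      · rw [W_left (ha _ _) (hκ _ _) _ _ _ (by norm_num) hh hs]
        exact (hκ _ _).out _ _ (Or.inr (Or.inr (Or.inr (by norm_num))))
      · rw [W_right (ha _ _) (hκ _ _) _ _ _ (by norm_num) hh hs]
        exact (ha _ _).out _ _ (Or.inr (Or.inr (Or.inr (by linarith))))

end Pool.Agent.H26R3.LH
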